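import Pool.Agent.H30.FQ.Targets

/-!
# MP_70ba79_ag: module EBD of the board `fq_modules`
-/

set_option autoImplicit false
set_option linter.unusedSectionVars false

namespace Pool.Agent.H64.FQ

open SC Pool.Agent.H27.LV Pool.Agent.H30.FQ Polynomial

section

variable {k K : Type} [Field k] [CharZero k] [Field K] [Algebra k K] (v : DV k K)

lemma ge_div {t : ℤ} {x y : K} (hx : ge v t x) (hy : y ≠ 0) : ge v (t - v.ord y) (x / y) := by
  rcases hx with h | h
  · left; rw [h, zero_div]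
  by_cases hx0 : x = 0
  · left; rw [hx0, zero_div]
  right
  rw [v.ord_div hx0 hy]
  omega

lemma ord_nat (n : ℕ) : v.ord (n : K) = 0 := by
  have := v.ord_base (n : k)
  rwa [map_natCast] at this

include v in
lemma nat_ne (n : ℕ) (hn : n ≠ 0) : (n : K) ≠ 0 := by
  have _ := v
  have := (_root_.map_ne_zero (algebraMap k K)).2 (Nat.cast_ne_zero.2 hn : (n : k) ≠ 0)
  rwa [map_natCast] at this

lemma ge_natdiv {t : ℤ} {x y : K} (n : ℕ) (hn : n ≠ 0) (hx : ge v t x) (hy : y ≠ 0) :
    ge v (t - v.ord y) (x / (n * y)) := by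
  have hn0 : (n : K) ≠ 0 := nat_ne v n hn
  have h := ge_div v hx (mul_ne_zero hn0 hy)
  rwa [v.ord_mul' hn0 hy, ord_nat, zero_add] at h

lemma dd_bound {D : Derivation k K K} {t r : ℤ} (hD : DOrd v D r) {z : K} (hz : ge v t z) :
    (0 ≤ t → ge v r (D z)) ∧ ge v (t - 1 + r) (D z) := by
  constructor
  · intro ht
    rcases hz with h | h
    · rw [h, map_zero]; exact ge_zero v _
    · exact hD.1 z (by omega)
  · rcases hz with h | h
    · rw [h, map_zero]; exact ge_zero v _
    · by_cases hz0 : z = 0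
      · rw [hz0, map_zero]; exact ge_zero v _
      · exact (hD.2 z hz0).mono (by omega)

lemma ebd_one {D : Derivation k K K} {s c w : ℤ} (hD : DOrd v D (s - c)) (hc : 0 ≤ c)
    (hcw : c ≤ w) (hw : s = 1 ∨ 1 ≤ w) {Z : K} (hZ : Z ≠ 0)
    (hs : s = 1 ∨ (s = 0 ∧ (v.ord Z = 0 ∨ 4 ≤ v.ord Z))) :
    ge v (-(4 * w)) ((D (D Z) - D Z) / (4 * Z)) ∧ ge v (-(2 * w)) (D Z / (4 * Z)) := by
  have h1 := hD.2 Z hZ
  have h2 := dd_bound v hD h1
  have key : ge v (v.ord Z - 4 * w) (D (D Z) - D Z) ∧ ge v (v.ord Z - 2 * w) (D Z) := by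
    rcases hs with hs | ⟨hs, h0 | h4⟩
    · subst hs
      exact ⟨(h2.2.mono (by omega)).sub (h1.mono (by omega)), h1.mono (by omega)⟩
    · subst hs
      have h3 := hD.1 Z h0.ge
      have hw1 : 1 ≤ w := by omega
      refine ⟨?_, h1.mono (by omega)⟩
      have h4 : ge v (-(3 * c)) (D (D Z)) := by
        by_cases hdz : D Z = 0
        · rw [hdz, map_zero]; exact ge_zero v _
        · by_cases hd : 0 ≤ v.ord (D Z)
          · exact (hD.1 _ hd).mono (by omega)
          · have h5 := h3.resolve_left hdz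
            exact (hD.2 _ hdz).mono (by omega)
      exact (h4.mono (by omega)).sub (h3.mono (by omega))
    · subst hs
      have hw1 : 1 ≤ w := by omega
      exact ⟨(h2.2.mono (by omega)).sub (h1.mono (by omega)), h1.mono (by omega)⟩
  have e : (4 : K) * Z = ((4 : ℕ) : K) * Z := by norm_num
  rw [e]
  exact ⟨(ge_natdiv v 4 (by norm_num) key.1 hZ).mono (by omega),
    (ge_natdiv v 4 (by norm_num) key.2 hZ).mono (by omega)⟩

lemma ge_natmul {t : ℤ} {x : K} (n : ℕ) (hx : ge v t x) : ge v t (n * x) := by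
  have h : ge v 0 (n : K) := by
    have := ge_const v (n : k)
    rwa [map_natCast] at this
  have := h.mul hx
  rwa [zero_add] at this

end

theorem ebd : T_EBD := by
  intro k K _ _ _ _ v D s c w X Y hloc hw hsw
  have hc := hloc.c0
  have hX0 := hloc.x0
  have hY0 := hloc.y0
  have hG0 := hloc.g0
  have hD := hloc.dord
  have habs := abs_nonneg (v.ord (QQ D X Y))
  have hcw : c ≤ w := by omega
  have hw0 : 0 ≤ w := by omega
  have h16 : (16 : K) ≠ 0 := by
    have := nat_ne v 16 (by norm_num)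
    exact_mod_cast this
  have hQ0 : QQ D X Y ≠ 0 := by
    unfold QQ
    exact div_ne_zero (pow_ne_zero _ hG0) (mul_ne_zero (mul_ne_zero h16 hX0) hY0)
  have hs : s = 1 ∨ s = 0 := by
    rcases hloc.alt with h | h
    · exact Or.inl h
    · exact Or.inr h.1
  -- `ll`
  have hl : ge v (-w) (ll D X Y) := by
    have h1 : ge v (v.ord (QQ D X Y) - w) (D (QQ D X Y)) := by
      rcases hs with hs | hs
      · subst hs
        exact (hD.2 _ hQ0).mono (by omega)
      · subst hs
        by_cases h0 : v.ord (QQ D X Y) = 0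
        · exact (hD.1 _ h0.ge).mono (by omega)
        · have : 1 ≤ |v.ord (QQ D X Y)| := Int.one_le_abs h0
          exact (hD.2 _ hQ0).mono (by omega)
    unfold ll
    have e : (4 : K) * QQ D X Y = ((4 : ℕ) : K) * QQ D X Y := by norm_num
    rw [e]
    exact (ge_natdiv v 4 (by norm_num) h1 hQ0).mono (by omega)
  refine ⟨hl, ?_⟩
  obtain ⟨hX1, hX2⟩ := ebd_one v hD hc hcw hsw hX0 (by
    rcases hloc.alt with h | h
    · exact Or.inl h
    · exact Or.inr ⟨h.1, h.2.2.1⟩)
  obtain ⟨hY1, hY2⟩ := ebd_one v hD hc hcw hsw hY0 (by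
    rcases hloc.alt with h | h
    · exact Or.inl h
    · exact Or.inr ⟨h.1, h.2.2.2⟩)
  have hGY : gg D X = -(D (D Y) - D Y) := by
    have h := congrArg D hloc.du
    rw [map_add, map_sub, map_add, D.map_one_eq_zero, sub_zero] at h
    unfold gg
    linear_combination h
  have ha : ge v (-(4 * w)) (aa D X) := hX1
  have hb : ge v (-(4 * w)) (bb D X Y) := by
    unfold bb
    rw [hGY, neg_neg]
    exact hY1
  have h1l : ge v (-(2 * w)) ((1 - ll D X Y) / 8) := by
    have h1 : ge v (-(2 * w)) (1 - ll D X Y) :=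
      ((ge_one v).mono (by omega)).sub (hl.mono (by omega))
    have h2 := ge_natdiv v 8 (by norm_num) h1 (one_ne_zero (α := K))
    rw [v.ord_one, sub_zero, mul_one] at h2
    exact_mod_cast h2
  have hp : ge v (-(2 * w)) (pp D X Y) := hX2.sub h1l
  have hq : ge v (-(2 * w)) (qq D X Y) := hY2.sub h1l
  have hsq : ∀ z : K, ge v (-(2 * w)) z → ge v (-(4 * w)) (z ^ 2) := by
    intro z hz
    rw [sq]
    exact (hz.mul hz).mono (by omega)
  unfold ee
  have e : 7 * (aa D X + bb D X Y) - 12 * (pp D X Y + qq D X Y) ^ 2 -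
      9 * (pp D X Y - qq D X Y) ^ 2 =
      ((7 : ℕ) : K) * (aa D X + bb D X Y) - ((12 : ℕ) : K) * (pp D X Y + qq D X Y) ^ 2 -
      ((9 : ℕ) : K) * (pp D X Y - qq D X Y) ^ 2 := by norm_num
  rw [e]
  exact ((ge_natmul v 7 (ha.add hb)).sub (ge_natmul v 12 (hsq _ (hp.add hq)))).sub
    (ge_natmul v 9 (hsq _ (hp.sub hq)))

end Pool.Agent.H64.FQ
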