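import Pool.Agent.H30.FQ.Targets

/-!
# MP_70ba79_ag: module LMU of the board `fq_modules`
-/

set_option autoImplicit false

namespace Pool.Agent.H64.FQ

open SC Pool.Agent.H27.LV Pool.Agent.H30.FQ Polynomial

section

variable {k K : Type} [Field k] [Field K] [Algebra k K]

lemma poleOrder_pair (v : DV k K) (X Y : K) :
    (poleOrder v ![X, Y] : ℤ) = max 0 (max (-(v.ord X)) (-(v.ord Y))) := by
  have h : poleOrder v ![X, Y] = max (-(v.ord X)).toNat (-(v.ord Y)).toNat := by
    unfold poleOrder
    apply le_antisymm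
    · refine Finset.sup_le fun i _ => ?_
      fin_cases i
      · exact le_max_left _ _
      · exact le_max_right _ _
    · refine max_le ?_ ?_
      · exact Finset.le_sup (f := fun i => (-(v.ord ((![X, Y] : Fin 2 → K) i))).toNat)
          (Finset.mem_univ 0)
      · exact Finset.le_sup (f := fun i => (-(v.ord ((![X, Y] : Fin 2 → K) i))).toNat)
          (Finset.mem_univ 1)
  rw [h]
  push_cast
  rw [Int.ofNat_toNat, Int.ofNat_toNat]
  omega

lemma ge_ord {v : DV k K} {t : ℤ} {x : K} (h : ge v t x) (hx : x ≠ 0) : t ≤ v.ord x :=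
  h.resolve_left hx

/-- the local inequality -/
lemma lmu_loc (S : Finset (DV k K)) (D : Derivation k K K) (X Y : K) (v : DV k K)
    (hD : DOrd v D (ordD v D)) (ho : Orb S X Y) (hw : X + Y ≠ 0)
    (hJ : Y * D X - X * D Y ≠ 0) :
    2 * (poleOrder v ![X, Y] : ℤ) ≤ 4 * v.ord (Y * D X - X * D Y) - 3 * (v.ord X + v.ord Y) -
      4 * v.ord (X + Y) + 4 * cc S D v + 4 * max 0 (v.ord (X + Y)) := by
  obtain ⟨hd1, hd2⟩ := hD
  have hX0 := ho.x0
  have hY0 := ho.y0
  have hX := ge_of_ord v (x := X)
  have hY := ge_of_ord v (x := Y)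
  have hW := ge_of_ord v (x := X + Y)
  have hDX := hd2 X hX0
  have hDY := hd2 Y hY0
  have hDW := hd2 (X + Y) hw
  have hz : min (v.ord X) (v.ord Y) ≤ v.ord (X + Y) := v.ord_add X Y hX0 hY0 hw
  have e1 : Y * D X - X * D Y = (X + Y) * D X - X * D (X + Y) := by rw [map_add]; ring
  have e2 : Y * D X - X * D Y = Y * D (X + Y) - (X + Y) * D Y := by rw [map_add]; ring
  have hp := poleOrder_pair v X Y
  by_cases hv : v ∈ S
  · have hc : cc S D v = 1 - ordD v D := by unfold cc; rw [if_pos hv]
    have j1 : v.ord X + v.ord (X + Y) - 1 + ordD v D ≤ v.ord (Y * D X - X * D Y) := by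
      apply ge_ord _ hJ
      rw [e1]
      exact ((hW.mul hDX).mono (by omega)).sub ((hX.mul hDW).mono (by omega))
    have j2 : v.ord Y + v.ord (X + Y) - 1 + ordD v D ≤ v.ord (Y * D X - X * D Y) := by
      apply ge_ord _ hJ
      rw [e2]
      exact ((hY.mul hDW).mono (by omega)).sub ((hW.mul hDY).mono (by omega))
    omega
  · have hc : cc S D v = - ordD v D := by unfold cc; rw [if_neg hv, zero_sub]
    have hx := ho.ox v hv
    have hy := ho.oy v hv
    have hDX' := hd1 X (by omega)
    have hDY' := hd1 Y (by omega)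
    have j0 : v.ord X + v.ord Y - 1 + ordD v D ≤ v.ord (Y * D X - X * D Y) := by
      apply ge_ord _ hJ
      exact ((hY.mul hDX).mono (by omega)).sub ((hX.mul hDY).mono (by omega))
    have j1 : v.ord X = 0 → v.ord Y = 0 → ordD v D ≤ v.ord (Y * D X - X * D Y) := by
      intro h1 h2
      apply ge_ord _ hJ
      exact ((hY.mul hDX').mono (by omega)).sub ((hX.mul hDY').mono (by omega))
    omega

end

section

variable {k K : Type} [Field k] [IsAlgClosed k] [CharZero k] [Field K] [Algebra k K]
  [Algebra.EssFiniteType k K]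

lemma deg_cast (htr : Algebra.trdeg k K = 1) (X Y : K) :
    (deg k ![X, Y] : ℤ) = ∑ᶠ v : DV k K, (poleOrder v ![X, Y] : ℤ) := by
  unfold deg
  exact AddMonoidHom.map_finsum (Nat.castAddMonoidHom ℤ) (pfi k K htr (Fin 2) ![X, Y])

lemma cc_sum (htr : Algebra.trdeg k K = 1) (S : Finset (DV k K)) (D : Derivation k K K)
    (hD : D ≠ 0) : (Function.support fun v : DV k K => cc S D v).Finite ∧
    ∑ᶠ v : DV k K, cc S D v = canDeg D + S.card := by
  classical
  have h1 : (Function.support fun v : DV k K => ordD v D).Finite :=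
    Pool.Agent.H58.LV.dfi dor pfm rat k K htr D hD
  have h2 : (Function.support fun v : DV k K => (if v ∈ S then (1 : ℤ) else 0)).Finite :=
    S.finite_toSet.subset fun v hv => by
      by_contra hcon
      exact hv (if_neg hcon)
  have e : (fun v : DV k K => cc S D v) = fun v => (if v ∈ S then (1 : ℤ) else 0) - ordD v D := by
    funext v
    unfold cc
    congr
  rw [e]
  constructor
  · exact (h2.union h1).subset (Function.support_sub _ _)
  · rw [finsum_sub_distrib h2 h1]
    have h3 : ∑ᶠ v : DV k K, (if v ∈ S then (1 : ℤ) else 0) = S.card := by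
      rw [finsum_eq_sum_of_support_subset (s := S) _ (fun v hv => by
        by_contra hcon
        exact hv (if_neg hcon))]
      rw [Finset.sum_congr rfl fun v hv => if_pos hv]
      simp
    rw [h3]
    unfold canDeg
    ring

theorem lmu (hHHI : T_HHI) : T_LMU := by
  intro k K _ _ _ _ _ _ htr S D X Y hD ho hw hXY
  obtain ⟨hh1, hh2, -⟩ := hHHI k K htr
  have hu : hh k (X + Y) = hh k (X + Y - 1) := by
    have := hh2 (X + Y) (-1)
    rw [map_neg, map_one, ← sub_eq_add_neg] at this
    exact this.symm
  have hX0 := ho.x0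
  have hY0 := ho.y0
  by_cases hJ : Y * D X - X * D Y = 0
  · right
    have h1 : D (X / Y) = 0 := by
      rw [D.leibniz_div, smul_eq_mul, smul_eq_mul, smul_eq_mul, hJ, mul_zero]
    obtain ⟨c, hc⟩ := ker k K htr D hD _ h1
    have h2 : X = algebraMap k K c * Y := by
      rw [hc, div_mul_cancel₀ _ hY0]
    have hc0 : c ≠ 0 := by
      rintro rfl
      rw [map_zero, zero_mul] at h2
      exact hX0 h2
    have h3 : X + Y = algebraMap k K (c + 1) * Y := by
      rw [map_add, map_one, add_mul, one_mul, ← h2]
    have hc1 : c + 1 ≠ 0 := by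
      intro h
      rw [h, map_zero, zero_mul] at h3
      exact hw h3
    have hord : ∀ (v : DV k K) (c : k), c ≠ 0 → v.ord (algebraMap k K c * Y) = v.ord Y := by
      intro v c hc
      rw [v.ord_mul' (by rwa [Ne, map_eq_zero]) hY0, v.ord_base, zero_add]
    refine ⟨?_, ?_⟩
    · rw [← hu, deg_cast htr]
      unfold hh
      apply finsum_congr
      intro v
      rw [poleOrder_pair, h3, hord v _ hc1]
      have h4 : v.ord X = v.ord Y := by rw [h2, hord v _ hc0]
      rw [h4, max_self]
    · rintro ⟨b, hb⟩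
      apply hXY
      have h5 : X + Y = algebraMap k K (b + 1) := by rw [map_add, map_one, hb]; ring
      have hc1' : algebraMap k K (c + 1) ≠ 0 := by rwa [Ne, map_eq_zero]
      have h6 : Y = algebraMap k K ((b + 1) / (c + 1)) := by
        rw [map_div₀, eq_div_iff hc1', mul_comm, ← h3, h5]
      refine ⟨⟨c * ((b + 1) / (c + 1)), ?_⟩, ⟨_, h6.symm⟩⟩
      rw [map_mul, ← h6, ← h2]
  · left
    obtain ⟨hcf, hcs⟩ := cc_sum htr S D hD
    have fJ := pfm k K htr (Y * D X - X * D Y)
    have fX := pfm k K htr X
    have fY := pfm k K htr Y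
    have fW := pfm k K htr (X + Y)
    have gP : (Function.support fun v : DV k K => (poleOrder v ![X, Y] : ℤ)).Finite :=
      (pfi k K htr (Fin 2) ![X, Y]).subset fun v hv h => hv (by
        change poleOrder v ![X, Y] = 0 at h
        change (poleOrder v ![X, Y] : ℤ) = 0
        rw [h]; rfl)
    have gM : (Function.support fun v : DV k K => max 0 (v.ord (X + Y))).Finite :=
      fW.1.subset fun v hv h => hv (by
        change v.ord (X + Y) = 0 at h
        change max 0 (v.ord (X + Y)) = 0
        rw [h, max_self])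
    have gJ : (Function.support fun v : DV k K => v.ord (Y * D X - X * D Y)).Finite := fJ.1
    have gX : (Function.support fun v : DV k K => v.ord X).Finite := fX.1
    have gY : (Function.support fun v : DV k K => v.ord Y).Finite := fY.1
    have gW : (Function.support fun v : DV k K => v.ord (X + Y)).Finite := fW.1
    classical
    obtain ⟨T, hT⟩ : ∃ T : Finset (DV k K), T = gP.toFinset ∪ gM.toFinset ∪ gJ.toFinset ∪
      gX.toFinset ∪ gY.toFinset ∪ gW.toFinset ∪ hcf.toFinset := ⟨_, rfl⟩
    have tr : ∀ (f : DV k K → ℤ) (hf : (Function.support f).Finite), hf.toFinset ⊆ T →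
        ∑ᶠ v : DV k K, f v = ∑ v ∈ T, f v := by
      intro f hf h
      apply finsum_eq_sum_of_support_subset
      intro v hv
      exact h (hf.mem_toFinset.2 hv)
    have sP := tr _ gP (by rw [hT]; intro v hv; simp only [Finset.mem_union]; tauto)
    have sM := tr _ gM (by rw [hT]; intro v hv; simp only [Finset.mem_union]; tauto)
    have sJ := tr _ gJ (by rw [hT]; intro v hv; simp only [Finset.mem_union]; tauto)
    have sX := tr _ gX (by rw [hT]; intro v hv; simp only [Finset.mem_union]; tauto)
    have sY := tr _ gY (by rw [hT]; intro v hv; simp only [Finset.mem_union]; tauto)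
    have sW := tr _ gW (by rw [hT]; intro v hv; simp only [Finset.mem_union]; tauto)
    have sC := tr _ hcf (by rw [hT]; intro v hv; simp only [Finset.mem_union]; tauto)
    have hsum := Finset.sum_le_sum (s := T) fun v _ =>
      lmu_loc S D X Y v (dor k K htr D hD v).2.1 ho hw hJ
    simp only [Finset.sum_add_distrib, Finset.sum_sub_distrib, ← Finset.mul_sum] at hsum
    rw [← sP, ← sM, ← sJ, ← sX, ← sY, ← sW, ← sC, fJ.2, fX.2, fY.2, fW.2, hcs,
      (hh1 (X + Y)).2.2, ← deg_cast htr, hu] at hsum
    linarith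

end

end Pool.Agent.H64.FQ
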